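import Pool.Agent.NH57.BK.Alg
import Pool.Agent.NH57.BK.Tr

/-!
# Project HB: complex conjugation of the good sets

The matrix of the conjugate of a good set is the transposed matrix.
-/

set_option autoImplicit false

namespace Pool.Agent.NH6.HB

open Pool.Agent.R384
open Pool.Agent.NH57.BK
open QuadraticAlgebra
open scoped Classical

/-- the primary generator of the conjugate prime -/
noncomputable def st (q : OO) : OO := if tO q = 0 then cj q else -cj q

lemma cj_mul (x y : OO) : cj (x * y) = cj x * cj y := map_mul cjH x y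

lemma cj_neg (x : OO) : cj (-x) = -cj x := map_neg cjH x

lemma cj_sub (x y : OO) : cj (x - y) = cj x - cj y := map_sub cjH x y

lemma cj_s7 : cj s7 = -s7 := by
  ext <;> simp [cj, s7]

lemma cj_om' : cj (1 - om) = om := by
  ext <;> simp [cj, om]

lemma tO_or (q : OO) : tO q = 0 ∨ tO q = 1 := by
  unfold tO
  split_ifs
  · exact Or.inr rfl
  · exact Or.inl rfl

lemma em2_cj (q : OO) : em h2 (cj q) = em AlgP.h3 q := by
  show ((q.re + q.im : ℤ) : ZMod 4) + ((-q.im : ℤ) : ZMod 4) * 2 =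
    ((q.re : ℤ) : ZMod 4) + ((q.im : ℤ) : ZMod 4) * 3
  push_cast
  have h : (4 : ZMod 4) = 0 := by decide
  linear_combination (-(q.im : ZMod 4)) * h

lemma prime_cj {q : OO} (h : Prime q) : Prime (cj q) := by
  let c : OO ≃+* OO := RingEquiv.ofBijective cjH
    ⟨fun x y h => by
      have h1 : R384.cj (R384.cj x) = R384.cj (R384.cj y) := congrArg R384.cj h
      rwa [cj_cj, cj_cj] at h1, fun x => ⟨R384.cj x, cj_cj x⟩⟩
  exact (MulEquiv.prime_iff c.toMulEquiv).2 h

lemma st_pm (q : OO) : st q = cj q ∨ st q = -cj q := by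
  unfold st
  split_ifs
  · exact Or.inl rfl
  · exact Or.inr rfl

lemma dvd_st {x q : OO} : x ∣ st q ↔ x ∣ cj q := by
  rcases st_pm q with h | h <;> rw [h]
  exact dvd_neg

lemma st_pp {q : OO} (h : Pp q) : Pp (st q) := by
  refine ⟨?_, ?_, fun h1 => ?_, fun h1 => ?_⟩
  · rcases st_pm q with h1 | h1 <;> rw [h1]
    · exact prime_cj h.prime
    · exact (prime_cj h.prime).neg
  · unfold st
    have h1 := AlgP.em3 h
    rcases tO_or q with h2 | h2
    · rw [if_pos h2, em2_cj, h1, h2]; rfl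
    · rw [if_neg (by rw [h2]; decide), map_neg, em2_cj, h1, h2]; rfl
  · rw [dvd_st] at h1
    have h4 := cj_dvd h1
    rw [cj_cj, cj_om'] at h4
    have h3 := map_dvd (R384.em h2) h4
    rw [h.one, AlgP.em2_om] at h3
    revert h3
    decide
  · rw [dvd_st] at h1
    have h2 := cj_dvd h1
    rw [cj_cj, cj_s7] at h2
    exact h.sev ((neg_dvd).1 h2)

lemma st_inj {q r : OO} (hq : Pp q) (hr : Pp r) (h : st q = st r) : q = r := by
  have h1 : q = r ∨ q = -r := by
    rcases st_pm q with h1 | h1 <;> rcases st_pm r with h2 | h2 <;> rw [h1, h2] at h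
    · left
      have := congrArg cj h
      rwa [cj_cj, cj_cj] at this
    · right
      have := congrArg cj h
      rwa [cj_cj, cj_neg, cj_cj] at this
    · right
      have := congrArg cj h
      rw [cj_neg, cj_cj, cj_cj] at this
      rw [← this, neg_neg]
    · left
      have := congrArg cj h
      rw [cj_neg, cj_neg, cj_cj, cj_cj] at this
      exact neg_injective this
  rcases h1 with h1 | h1
  · exact h1
  · exfalso
    have h2 := congrArg (em NH57.BK.h2) h1
    rw [map_neg, hq.one, hr.one] at h2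
    revert h2
    decide

lemma sqm_neg {q x : OO} : Sqm (-q) x ↔ Sqm q x := by
  unfold Sqm
  simp only [neg_dvd]

/-- the symbols depend on the ideal only -/
lemma qs_st (q x : OO) : qs (st q) x = qs (cj q) x := by
  rcases st_pm q with h | h <;> rw [h]
  exact qs_eq sqm_neg

lemma qs_cj (q x : OO) : qs (cj q) (cj x) = qs q x := qs_eq sqm_cj

lemma not_dvd_neg_one {q : OO} (h : Pp q) : ¬ q ∣ (-1 : OO) := AlgP.not_unit h (Or.inr rfl)

/-- the symbol of the conjugates -/
lemma qs_stst {q r : OO} (hq : Pp q) (hr : Pp r) (hne : q ≠ r) : qs (st r) (st q) = qs q r := by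
  have hrec := t_REC
  have h1 : qs (st r) (st q) = qs r q + tO q * tO r := by
    rw [qs_st]
    unfold st
    rcases tO_or q with h2 | h2
    · rw [if_pos h2, qs_cj, h2, zero_mul, add_zero]
    · have e : -cj q = cj (-1 * q) := by rw [neg_one_mul, cj_neg]
      rw [if_neg (by rw [h2]; decide), e, qs_cj, AlgP.qs_mul hr.prime (AlgP.not_two hr)
        (not_dvd_neg_one hr) (AlgP.nd hr hq (Ne.symm hne)), (hrec.2 r hr).2, h2, one_mul]
      ring
  rw [h1, ← hrec.1 q r hq hr hne]
  have h5 : ∀ y : ZMod 2, y + y = 0 := by decide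
  linear_combination h5 (qs r q)

lemma qs_s7_st {q : OO} (hq : Pp q) : qs s7 (st q) = qs s7 q + tO q := by
  have hrec := t_REC
  rw [← (hrec.2 _ (st_pp hq)).1, qs_st]
  have e : s7 = cj (-1 * s7) := by rw [neg_one_mul, cj_neg, cj_s7, neg_neg]
  have e2 : qs (cj q) s7 = qs q (-1 * s7) := by
    conv_lhs => rw [e]
    rw [qs_cj]
  rw [e2, AlgP.qs_mul hq.prime (AlgP.not_two hq) (not_dvd_neg_one hq) (AlgP.not_s7 hq),
    (hrec.2 q hq).2, (hrec.2 q hq).1]
  ring

lemma prod_st {S : Finset OO} : ∏ q ∈ S, st q = (-1) ^ (∑ q ∈ S, (tO q).val) * cj (∏ q ∈ S, q) := by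
  induction S using Finset.induction_on with
  | empty => simp [cj]; rfl
  | insert q S hq ih =>
    rw [Finset.prod_insert hq, Finset.prod_insert hq, Finset.sum_insert hq, ih, cj_mul, pow_add]
    have h1 : st q = (-1) ^ (tO q).val * cj q := by
      unfold st
      rcases tO_or q with h2 | h2
      · rw [if_pos h2, h2]
        show cj q = (-1) ^ 0 * cj q
        rw [pow_zero, one_mul]
      · rw [if_neg (by rw [h2]; decide), h2]
        show -cj q = (-1) ^ 1 * cj q
        rw [pow_one, neg_one_mul]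
    rw [h1]
    ring

/-- the conjugate of a good set -/
theorem good_conj {S : Finset OO} (hS : GoodS S) :
    ∃ S' : Finset OO, GoodS S' ∧ ∏ q ∈ S', q = cj (∏ q ∈ S, q) := by
  have hinj : ∀ a ∈ S, ∀ b ∈ S, st a = st b → a = b := fun a ha b hb h =>
    st_inj (hS.pp a ha) (hS.pp b hb) h
  have hprod : ∏ q ∈ S.image st, q = cj (∏ q ∈ S, q) := by
    rw [Finset.prod_image hinj, prod_st]
    have h1 : Even (∑ q ∈ S, (tO q).val) := by
      rw [← ZMod.natCast_eq_zero_iff_even]
      push_cast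
      simp only [ZMod.natCast_val, ZMod.cast_id]
      exact AlgP.sum_t hS
    rw [h1.neg_one_pow, one_mul]
  refine ⟨S.image st, ⟨?_, ?_, ?_⟩, hprod⟩
  · intro q hq
    obtain ⟨r, hr, rfl⟩ := Finset.mem_image.1 hq
    exact st_pp (hS.pp r hr)
  · rw [hprod]
    obtain ⟨t, ht⟩ := hS.one
    refine ⟨cj t, ?_⟩
    have h1 := congrArg cjH ht
    rw [map_sub, map_one, map_mul, map_ofNat] at h1
    exact h1
  · intro v hv π' hπ'
    obtain ⟨π, hπ, rfl⟩ := Finset.mem_image.1 hπ'
    refine AlgP.transp hS (fun x => v (st x)) ?_ π hπ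
    intro π hπ
    have h1 := hv (st π) (Finset.mem_image_of_mem _ hπ)
    rw [Finset.sum_image hinj] at h1
    have h5 : ∀ y : ZMod 2, y + y = 0 := by decide
    have h2 : ∑ ρ ∈ S, qs (st ρ) (st π) * (v (st π) + v (st ρ)) =
        ∑ ρ ∈ S, qs π ρ * (v (st π) + v (st ρ)) := by
      refine Finset.sum_congr rfl fun ρ hρ => ?_
      by_cases h : ρ = π
      · rw [h, h5, mul_zero, mul_zero]
      · rw [qs_stst (hS.pp π hπ) (hS.pp ρ hρ) (Ne.symm h)]
    rw [h2, qs_s7_st (hS.pp π hπ)] at h1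
    have h3 : ∑ ρ ∈ S, qs ρ π = ∑ ρ ∈ S, qs π ρ + tO π := by
      rw [Finset.sum_congr rfl fun ρ hρ => AlgP.rec_all t_REC hS hπ hρ, Finset.sum_add_distrib,
        Finset.sum_add_distrib, ← Finset.mul_sum, AlgP.sum_t hS, mul_zero, add_zero,
        Finset.sum_ite_eq' S π, if_pos hπ]
    have h4 : ∑ ρ ∈ S, qs π ρ * (v (st π) + v (st ρ)) =
        (∑ ρ ∈ S, qs π ρ) * v (st π) + ∑ ρ ∈ S, qs π ρ * v (st ρ) := by
      rw [Finset.sum_mul, ← Finset.sum_add_distrib]
      exact Finset.sum_congr rfl fun ρ _ => by ring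
    rw [h4] at h1
    show (qs s7 π + ∑ ρ ∈ S, qs ρ π) * v (st π) + ∑ ρ ∈ S, qs π ρ * v (st ρ) = 0
    rw [h3]
    linear_combination h1

end Pool.Agent.NH6.HB
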