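import Pool.Agent.NH57.BL.AlgG
import Pool.Agent.NH6.HB.Conj

/-!
# Project HB: complex conjugation of the sets that are good for all weights

The bordered matrix of the conjugate is the transposed bordered matrix, and the classes modulo eight at the
two places above two are exchanged.
-/

set_option autoImplicit false

namespace Pool.Agent.NH6.HB

open Pool.Agent.R384
open Pool.Agent.NH57.BK
open Pool.Agent.NH57.BG (e6 e3 S_SUPO)
open Pool.Agent.NH57.BH
open QuadraticAlgebra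
open scoped Classical

lemma nn_neg (z : OO) : nn (-z) = nn z := by
  unfold nn
  show (-z.re) ^ 2 + (-z.re) * (-z.im) + 2 * (-z.im) ^ 2 = _
  ring

lemma tO_st (q : OO) : tO (st q) = tO q := by
  have h : nn (st q) = nn q := by
    rcases st_pm q with h | h <;> rw [h]
    · exact nn_cj q
    · rw [nn_neg, nn_cj]
  unfold tO
  rw [h]

lemma cj_om0 : cj (-om) = -(1 - om) := by
  ext <;> simp [cj, om]

lemma cj_om1 : cj (-(1 - om)) = -om := by
  ext <;> simp [cj, om]

lemma gO_st (x : ZMod 2) (q : OO) : gO x (st q) = dO x q := by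
  unfold gO dO
  rw [tO_st, qs_st, ← cj_om0, qs_cj]

lemma dO_st (y : ZMod 2) (q : OO) : dO y (st q) = gO y q := by
  unfold gO dO
  rw [tO_st, qs_st, ← cj_om1, qs_cj]

lemma em6_cj (z : OO) : em e6 (cj z) = em e3 z := by
  show ((z.re + z.im : ℤ) : ZMod 8) + ((-z.im : ℤ) : ZMod 8) * 6 =
    ((z.re : ℤ) : ZMod 8) + ((z.im : ℤ) : ZMod 8) * 3
  push_cast
  have h : (8 : ZMod 8) = 0 := by decide
  linear_combination (-(z.im : ZMod 8)) * h

lemma em3_cj (z : OO) : em e3 (cj z) = em e6 z := by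
  show ((z.re + z.im : ℤ) : ZMod 8) + ((-z.im : ℤ) : ZMod 8) * 3 =
    ((z.re : ℤ) : ZMod 8) + ((z.im : ℤ) : ZMod 8) * 6
  push_cast
  have h : (8 : ZMod 8) = 0 := by decide
  linear_combination (-(z.im : ZMod 8)) * h

lemma aa_symm (x y : ZMod 2) : aa y x = aa x y := by
  unfold aa
  simp only [and_comm]

variable {S : Finset OO}

lemma st_inj_on (hS : GoodS S) : ∀ a ∈ S, ∀ b ∈ S, st a = st b → a = b := fun a ha b hb h =>
  st_inj (hS.pp a ha) (hS.pp b hb) h

lemma prod_image_st (hS : GoodS S) : ∏ q ∈ S.image st, q = cj (∏ q ∈ S, q) := by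
  rw [Finset.prod_image (st_inj_on hS), prod_st]
  have h1 : Even (∑ q ∈ S, (tO q).val) := by
    rw [← ZMod.natCast_eq_zero_iff_even]
    push_cast
    simp only [ZMod.natCast_val, ZMod.cast_id]
    exact AlgP.sum_t hS
  rw [h1.neg_one_pow, one_mul]

/-- the rows of the matrix of the conjugate are the columns -/
lemma row_st (hS : GoodS S) (v : OO → ZMod 2) {π : OO} (hπ : π ∈ S) :
    qs s7 (st π) * v (st π) + ∑ ρ ∈ S.image st, qs ρ (st π) * (v (st π) + v ρ) =
      (qs s7 π + ∑ ρ ∈ S, qs ρ π) * v (st π) + ∑ ρ ∈ S, qs π ρ * v (st ρ) := by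
  rw [Finset.sum_image (st_inj_on hS)]
  have h5 : ∀ y : ZMod 2, y + y = 0 := by decide
  have h2 : ∑ ρ ∈ S, qs (st ρ) (st π) * (v (st π) + v (st ρ)) =
      ∑ ρ ∈ S, qs π ρ * (v (st π) + v (st ρ)) := by
    refine Finset.sum_congr rfl fun ρ hρ => ?_
    by_cases h : ρ = π
    · rw [h, h5, mul_zero, mul_zero]
    · rw [qs_stst (hS.pp π hπ) (hS.pp ρ hρ) (Ne.symm h)]
  have h3 : ∑ ρ ∈ S, qs ρ π = ∑ ρ ∈ S, qs π ρ + tO π := by
    rw [Finset.sum_congr rfl fun ρ hρ => AlgP.rec_all t_REC hS hπ hρ, Finset.sum_add_distrib,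
      Finset.sum_add_distrib, ← Finset.mul_sum, AlgP.sum_t hS, mul_zero, add_zero,
      Finset.sum_ite_eq' S π, if_pos hπ]
  have h4 : ∑ ρ ∈ S, qs π ρ * (v (st π) + v (st ρ)) =
      (∑ ρ ∈ S, qs π ρ) * v (st π) + ∑ ρ ∈ S, qs π ρ * v (st ρ) := by
    rw [Finset.sum_mul, ← Finset.sum_add_distrib]
    exact Finset.sum_congr rfl fun ρ _ => by ring
  rw [h2, h4, h3, qs_s7_st (hS.pp π hπ)]
  ring

lemma good_image (hS : GoodS S) : GoodS (S.image st) := by
  refine ⟨?_, ?_, ?_⟩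
  · intro q hq
    obtain ⟨r, hr, rfl⟩ := Finset.mem_image.1 hq
    exact st_pp (hS.pp r hr)
  · rw [prod_image_st hS]
    obtain ⟨t, ht⟩ := hS.one
    refine ⟨cj t, ?_⟩
    have h1 := congrArg cjH ht
    rw [map_sub, map_one, map_mul, map_ofNat] at h1
    exact h1
  · intro v hv π' hπ'
    obtain ⟨π, hπ, rfl⟩ := Finset.mem_image.1 hπ'
    refine AlgP.transp hS (fun x => v (st x)) ?_ π hπ
    intro π hπ
    have h1 := hv (st π) (Finset.mem_image_of_mem _ hπ)
    rw [row_st hS v hπ] at h1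
    exact h1

/-- the conjugate of a set which is good for all weights -/
theorem goodX_image {x y : ZMod 2} (hG : GoodX x y S) : GoodX y x (S.image st) := by
  refine ⟨good_image hG.gs, ?_, ?_, ?_⟩
  · rw [prod_image_st hG.gs, em6_cj]
    exact hG.three
  · rw [prod_image_st hG.gs, em3_cj]
    exact hG.six
  · intro v e hv he
    have h := AG.regT hG (fun z => v (st z)) e (fun π hπ => by
      have h1 := hv (st π) (Finset.mem_image_of_mem _ hπ)
      rw [row_st hG.gs v hπ, gO_st] at h1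
      exact h1) (by
      rw [Finset.sum_image (st_inj_on hG.gs), aa_symm] at he
      rw [← he]
      congr 1
      refine Finset.sum_congr rfl fun ρ _ => ?_
      rw [dO_st])
    refine ⟨fun π' hπ' => ?_, h.2⟩
    obtain ⟨π, hπ, rfl⟩ := Finset.mem_image.1 hπ'
    exact h.1 π hπ

theorem goodX_conj {x y : ZMod 2} (hG : GoodX x y S) :
    ∃ S' : Finset OO, GoodX y x S' ∧ ∏ q ∈ S', q = cj (∏ q ∈ S, q) :=
  ⟨S.image st, goodX_image hG, prod_image_st hG.gs⟩

/-- the twists by the products with the norm of `D₀` are good too -/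
theorem goodX_all {n : ℕ} {D₀ : OO} (hD : D₀ ≠ 0) {d : Fin n → ℤ}
    (h : ∀ T : Finset (Fin n), ∃ (x y : ZMod 2) (S : Finset OO) (z : OO), GoodX x y S ∧ z ≠ 0 ∧
      D₀ * ∏ i ∈ T, ((d i : ℤ) : OO) = (∏ q ∈ S, q) * z ^ 2) (T : Finset (Fin (n + 1))) :
    ∃ (x y : ZMod 2) (S : Finset OO) (z : OO), GoodX x y S ∧ z ≠ 0 ∧
      -(s7 * D₀) * ∏ i ∈ T, (Fin.cons ((nn D₀ : ℤ) : OO) (fun i => ((d i : ℤ) : OO)) :
        Fin (n + 1) → OO) i = -(s7 * ∏ q ∈ S, q) * z ^ 2 := by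
  set E : Fin (n + 1) → OO := Fin.cons ((nn D₀ : ℤ) : OO) (fun i => ((d i : ℤ) : OO)) with hE
  set T' : Finset (Fin n) := Finset.univ.filter fun i => i.succ ∈ T with hT'
  have hprod : ∏ i ∈ T, E i = (if (0 : Fin (n + 1)) ∈ T then E 0 else 1) *
      ∏ i ∈ T', ((d i : ℤ) : OO) := by
    have h1 : ∏ i ∈ T, E i = ∏ i : Fin (n + 1), if i ∈ T then E i else 1 := by
      rw [Finset.prod_ite_mem, Finset.univ_inter]
    rw [h1, Fin.prod_univ_succ]
    congr 1
    rw [hT', Finset.prod_filter]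
    refine Finset.prod_congr rfl fun i _ => ?_
    rw [hE, Fin.cons_succ]
  obtain ⟨x, y, S, z, hS, hz, hSz⟩ := h T'
  by_cases h0 : (0 : Fin (n + 1)) ∈ T
  · obtain ⟨S', hS', hprod'⟩ := goodX_conj hS
    refine ⟨y, x, S', D₀ * cj z, hS', mul_ne_zero hD fun h1 => hz ?_, ?_⟩
    · rw [← cj_cj z, h1]
      ext <;> simp [cj]
    · rw [hprod, if_pos h0, hprod', hE, Fin.cons_zero, ← mul_cj]
      have h1 := congrArg cjH hSz
      rw [map_mul, map_mul, map_pow, map_prod] at h1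
      simp only [map_intCast] at h1
      have h2 : cj D₀ * ∏ i ∈ T', ((d i : ℤ) : OO) = cj (∏ q ∈ S, q) * cj z ^ 2 := h1
      linear_combination (-s7 * D₀ ^ 2) * h2
  · refine ⟨x, y, S, z, hS, hz, ?_⟩
    rw [hprod, if_neg h0]
    linear_combination (-s7) * hSz

end Pool.Agent.NH6.HB
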