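import Pool.Agent.NH6.HB.Shap
import Pool.Agent.NH6.HB.Conj
import Pool.Agent.NH57.BK.Mq

/-!
# Project HB: the totally real field
-/

set_option autoImplicit false
set_option linter.unusedSectionVars false

namespace Pool.Agent.NH6.HB

open Pool.Agent.R384
open Pool.Agent.NH57.BK
open Pool.Agent.Y715.Gi (QB KK GK)

open scoped Classical

/-- the positive one of the numbers `m`, `-7 m` -/
def mp (m : ℤ) : ℤ := if 0 < m then m else -7 * m

/-- the field generated by the square roots of `N` and of the `mp (d i)` -/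
noncomputable def fld {n : ℕ} (N : ℕ) (d : Fin n → ℤ) : IntermediateField ℚ QB :=
  IntermediateField.adjoin ℚ {x : QB | x ^ 2 = (N : QB) ∨ ∃ i, x ^ 2 = ((mp (d i) : ℤ) : QB)}

lemma mp_pos {m : ℤ} (h : m ≠ 0) : 0 < mp m := by
  unfold mp
  split_ifs with h1
  · exact h1
  · omega

/-- the field is totally real -/
theorem fld_real {n : ℕ} (N : ℕ) {d : Fin n → ℤ} (hd : ∀ i, d i ≠ 0) (φ : fld N d →+* ℂ)
    (x : fld N d) : (φ x).im = 0 := by
  have key : ∀ (m : ℤ), 0 ≤ m → ∀ z : ℂ, z ^ 2 = (m : ℂ) → (starRingEnd ℂ) z = z := by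
    intro m hm z hz
    have h1 := congrArg Complex.re hz
    have h2 := congrArg Complex.im hz
    simp only [pow_two, Complex.mul_re, Complex.mul_im, Complex.intCast_re,
      Complex.intCast_im] at h1 h2
    rw [Complex.conj_eq_iff_im]
    have h3 : (0 : ℝ) ≤ m := by exact_mod_cast hm
    by_contra h0
    have h4 : z.re = 0 := by
      have : z.re * z.im = 0 := by linarith
      exact (mul_eq_zero.1 this).resolve_right h0
    rw [h4] at h1
    have h5 : 0 < z.im * z.im := mul_self_pos.2 h0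
    linarith
  obtain ⟨x, hx⟩ := x
  rw [← Complex.conj_eq_iff_im]
  refine IntermediateField.adjoin_induction
    (p := fun x hx => (starRingEnd ℂ) (φ ⟨x, hx⟩) = φ ⟨x, hx⟩) ℚ ?_ ?_ ?_ ?_ ?_ hx
  · intro y hy
    have hy' := hy
    have hmem : y ∈ fld N d := IntermediateField.subset_adjoin ℚ _ hy
    rcases hy' with h | ⟨i, h⟩
    · refine key (N : ℤ) (Nat.cast_nonneg N) _ ?_
      rw [← map_pow]
      have h1 : (⟨y, hmem⟩ : fld N d) ^ 2 = ((N : ℤ) : fld N d) := by
        apply Subtype.ext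
        show y ^ 2 = _
        rw [h]
        push_cast
        rfl
      rw [h1, map_intCast]
    · refine key (mp (d i)) (mp_pos (hd i)).le _ ?_
      rw [← map_pow]
      have h1 : (⟨y, hmem⟩ : fld N d) ^ 2 = ((mp (d i) : ℤ) : fld N d) := by
        apply Subtype.ext
        show y ^ 2 = _
        rw [h]
        push_cast
        rfl
      rw [h1, map_intCast]
  · intro q
    have h1 : (⟨algebraMap ℚ QB q, algebraMap_mem (fld N d) q⟩ : fld N d) =
        ((q : ℚ) : fld N d) := by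
      apply Subtype.ext
      show algebraMap ℚ QB q = _
      rw [eq_ratCast]
      push_cast
      rfl
    have h2 : φ ⟨algebraMap ℚ QB q, algebraMap_mem (fld N d) q⟩ = (q : ℂ) := by
      rw [h1, map_ratCast]
    rw [h2, map_ratCast]
  · intro x y hx hy h1 h2
    have e : (⟨x + y, add_mem hx hy⟩ : fld N d) = ⟨x, hx⟩ + ⟨y, hy⟩ := rfl
    rw [e, map_add, map_add, h1, h2]
  · intro x hx h1
    have e : (⟨x⁻¹, inv_mem hx⟩ : fld N d) = ⟨x, hx⟩⁻¹ := rfl
    rw [e, map_inv₀, map_inv₀, h1]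
  · intro x y hx hy h1 h2
    have e : (⟨x * y, mul_mem hx hy⟩ : fld N d) = ⟨x, hx⟩ * ⟨y, hy⟩ := rfl
    rw [e, map_mul, map_mul, h1, h2]

/-- `w` is not in the field -/
theorem w_notin {n : ℕ} (N : ℕ) {d : Fin n → ℤ} (hd : ∀ i, d i ≠ 0) {w : QB}
    (hw : w ^ 2 = w - 2) : w ∉ fld N d := by
  intro h
  obtain ⟨φ⟩ : Nonempty (fld N d →ₐ[ℚ] ℂ) := by
    have h1 : Algebra.IsAlgebraic ℚ QB := inferInstance
    have h2 : Algebra.IsAlgebraic ℚ (fld N d) := Algebra.IsAlgebraic.tower_bot ℚ (fld N d) QB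
    exact ⟨IsAlgClosed.lift⟩
  have h1 := fld_real N hd φ.toRingHom ⟨w, h⟩
  have h2 : (⟨w, h⟩ : fld N d) ^ 2 = ⟨w, h⟩ - 2 := by
    apply Subtype.ext
    exact hw
  have h3 := congrArg φ.toRingHom h2
  rw [map_pow, map_sub, map_ofNat] at h3
  generalize φ.toRingHom ⟨w, h⟩ = z at h1 h3
  have h4 := congrArg Complex.re h3
  simp only [pow_two, Complex.mul_re, Complex.sub_re, h1, mul_zero, sub_zero] at h4
  have h5 : (2 : ℂ).re = 2 := by simp
  rw [h5] at h4
  nlinarith [sq_nonneg (z.re - 1 / 2)]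

variable {w : QB} (hw : w ^ 2 = w - 2)

lemma gk_w (σ : GK w) : σ w = w :=
  σ.commutes ⟨w, IntermediateField.mem_adjoin_simple_self ℚ w⟩

/-- the two subgroups are the same -/
theorem fixF_eq {n : ℕ} {N : ℕ} {d : Fin n → ℤ} {r : QB} (hr : r ^ 2 = (N : QB))
    {s : Fin n → QB} (hs : ∀ i, s i ^ 2 = ((d i : ℤ) : QB)) (hw : w ^ 2 = w - 2) :
    fixF w (fld N d) = fixs (i₀ := w) (Fin.cons r s : Fin (n + 1) → QB) Finset.univ := by
  have hu0 : 2 * w - 1 ≠ 0 := by
    intro h
    have h1 : (2 * w - 1) ^ 2 = -7 := by linear_combination 4 * hw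
    rw [h] at h1
    norm_num at h1
  have hu2 : (2 * w - 1) ^ 2 = -7 := by linear_combination 4 * hw
  ext σ
  have hσu : σ (2 * w - 1) = 2 * w - 1 := by
    rw [map_sub, map_mul, map_ofNat, map_one, gk_w]
  constructor
  · intro h i _
    have h' : ∀ x ∈ fld N d, σ x = x := h
    refine Fin.cases ?_ (fun j => ?_) i
    · rw [Fin.cons_zero]
      exact h' r (IntermediateField.subset_adjoin ℚ _ (Or.inl hr))
    · rw [Fin.cons_succ]
      by_cases hj : 0 < d j
      · refine h' _ (IntermediateField.subset_adjoin ℚ _ (Or.inr ⟨j, ?_⟩))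
        rw [hs]
        unfold mp
        rw [if_pos hj]
      · have h1 : σ ((2 * w - 1) * s j) = (2 * w - 1) * s j := by
          refine h' _ (IntermediateField.subset_adjoin ℚ _ (Or.inr ⟨j, ?_⟩))
          rw [mul_pow, hs, hu2]
          unfold mp
          rw [if_neg hj]
          push_cast
          ring
        rw [map_mul, hσu] at h1
        exact mul_left_cancel₀ hu0 h1
  · intro h x hx
    have hr' : σ r = r := by
      have := h 0 (Finset.mem_univ _)
      rwa [Fin.cons_zero] at this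
    have hs' : ∀ j, σ (s j) = s j := fun j => by
      have := h j.succ (Finset.mem_univ _)
      rwa [Fin.cons_succ] at this
    refine IntermediateField.adjoin_induction (p := fun x _ => σ x = x) ℚ ?_ ?_ ?_ ?_ ?_ hx
    · rintro y (hy | ⟨j, hy⟩)
      · rw [← hr] at hy
        rcases sq_eq_sq_iff_eq_or_eq_neg.1 hy with h1 | h1
        · rw [h1, hr']
        · rw [h1, map_neg, hr']
      · by_cases hj : 0 < d j
        · have h2 : y ^ 2 = s j ^ 2 := by
            rw [hy, hs]
            unfold mp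
            rw [if_pos hj]
          rcases sq_eq_sq_iff_eq_or_eq_neg.1 h2 with h1 | h1
          · rw [h1, hs']
          · rw [h1, map_neg, hs']
        · have h2 : y ^ 2 = ((2 * w - 1) * s j) ^ 2 := by
            rw [hy, mul_pow, hs, hu2]
            unfold mp
            rw [if_neg hj]
            push_cast
            ring
          rcases sq_eq_sq_iff_eq_or_eq_neg.1 h2 with h1 | h1
          · rw [h1, map_mul, hs', hσu]
          · rw [h1, map_neg, map_mul, hs', hσu]
    · intro q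
      have h1 : algebraMap ℚ QB q = algebraMap (KK w) QB (algebraMap ℚ (KK w) q) := rfl
      rw [h1, AlgEquiv.commutes]
    · intro x y _ _ hx hy
      rw [map_add, hx, hy]
    · intro x _ hx
      rw [map_inv₀, hx]
    · intro x y _ _ hx hy
      rw [map_mul, hx, hy]

/-- the twists by the products with the norm of `D₀` are good too -/
theorem good_all {n : ℕ} {D₀ : OO} (hD : D₀ ≠ 0) {d : Fin n → ℤ}
    (h : ∀ T : Finset (Fin n), ∃ (S : Finset OO) (z : OO), GoodS S ∧ z ≠ 0 ∧
      D₀ * ∏ i ∈ T, ((d i : ℤ) : OO) = (∏ q ∈ S, q) * z ^ 2) (T : Finset (Fin (n + 1))) :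
    ∃ (S : Finset OO) (z : OO), GoodS S ∧ z ≠ 0 ∧
      -(s7 * D₀) * ∏ i ∈ T, (Fin.cons ((nn D₀ : ℤ) : OO) (fun i => ((d i : ℤ) : OO)) :
        Fin (n + 1) → OO) i = -(s7 * ∏ q ∈ S, q) * z ^ 2 := by
  set E : Fin (n + 1) → OO := Fin.cons ((nn D₀ : ℤ) : OO) (fun i => ((d i : ℤ) : OO)) with hE
  set T' : Finset (Fin n) := Finset.univ.filter fun i => i.succ ∈ T with hT'
  have hprod : ∏ i ∈ T, E i = (if (0 : Fin (n + 1)) ∈ T then E 0 else 1) *
      ∏ i ∈ T', ((d i : ℤ) : OO) := by
    have h1 : ∏ i ∈ T, E i = ∏ i : Fin (n + 1), if i ∈ T then E i else 1 := by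
      rw [Finset.prod_ite_mem, Finset.univ_inter]
    rw [h1, Fin.prod_univ_succ]
    congr 1
    rw [hT', Finset.prod_filter]
    refine Finset.prod_congr rfl fun i _ => ?_
    rw [hE, Fin.cons_succ]
  obtain ⟨S, z, hS, hz, hSz⟩ := h T'
  by_cases h0 : (0 : Fin (n + 1)) ∈ T
  · obtain ⟨S', hS', hprod'⟩ := good_conj hS
    refine ⟨S', D₀ * cj z, hS', mul_ne_zero hD fun h1 => hz ?_, ?_⟩
    · rw [← cj_cj z, h1]
      ext <;> simp [cj]
    · rw [hprod, if_pos h0, hprod', hE, Fin.cons_zero, ← mul_cj]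
      have h1 := congrArg cjH hSz
      rw [map_mul, map_mul, map_pow, map_prod] at h1
      simp only [map_intCast] at h1
      have h2 : cj D₀ * ∏ i ∈ T', ((d i : ℤ) : OO) = cj (∏ q ∈ S, q) * cj z ^ 2 := h1
      linear_combination (-s7 * D₀ ^ 2) * h2
  · refine ⟨S, z, hS, hz, ?_⟩
    rw [hprod, if_neg h0]
    linear_combination (-s7) * hSz

end Pool.Agent.NH6.HB
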