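import Pool.Agent.NH57.BK.Stm

/-!
# Project HB: Selmer groups of induced representations (Shapiro's lemma with local conditions)
-/

set_option autoImplicit false
set_option linter.unusedSectionVars false

namespace Pool.Agent.NH6.HB

open Pool.Agent.R384
open Pool.Agent.Y715.Gi (QB KK GK)

/-- the Galois group over `F` -/
abbrev GF (F : IntermediateField ℚ QB) : Type := QB ≃ₐ[F] QB

/-- the elements of `GK w` that fix `F` -/
def fixF (w : QB) (F : IntermediateField ℚ QB) : Subgroup (GK w) where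
  carrier := {σ | ∀ x ∈ F, σ x = x}
  mul_mem' := by
    intro a b ha hb x hx
    rw [AlgEquiv.mul_apply, hb x hx, ha x hx]
  one_mem' := fun _ _ => rfl
  inv_mem' := by
    intro a ha x hx
    have h1 := ha x hx
    show a.symm x = x
    rw [AlgEquiv.symm_apply_eq]
    exact h1.symm

variable {w : QB} {F : IntermediateField ℚ QB}

/-- the restriction of scalars -/
noncomputable def upf (σ : fixF w F) : GF F :=
  AlgEquiv.ofRingEquiv (f := σ.1.toRingEquiv) fun r => σ.2 r r.2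

lemma upf_apply (σ : fixF w F) (x : QB) : upf σ x = σ.1 x := rfl

/-- the restriction of scalars as a homomorphism -/
noncomputable def up : fixF w F →* GF F where
  toFun := upf
  map_one' := by
    ext x
    rfl
  map_mul' σ τ := by
    ext x
    rfl

lemma up_apply (σ : fixF w F) (x : QB) : up σ x = σ.1 x := rfl

lemma up_cont : Continuous (up : fixF w F →* GF F) := by
  refine continuous_of_continuousAt_one _ ?_
  unfold ContinuousAt
  rw [map_one, Filter.tendsto_def]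
  intro s hs
  rw [krullTopology_mem_nhds_one_iff] at hs
  obtain ⟨E, hE, hEs⟩ := hs
  set b := Module.finBasis F E with hb
  set E' : IntermediateField (KK w) QB :=
    IntermediateField.adjoin (KK w) (Set.range fun i => ((b i : E) : QB)) with hE'
  have hfin : FiniteDimensional (KK w) E' :=
    IntermediateField.finiteDimensional_adjoin fun x _ => by
      have : Algebra.IsIntegral ℚ QB := inferInstance
      exact (this.isIntegral x).tower_top
  have h1 : (E'.fixingSubgroup : Set (GK w)) ∈ nhds (1 : GK w) :=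
    (krullTopology_mem_nhds_one_iff _ _ _).2 ⟨E', hfin, subset_rfl⟩
  have h2 : (Subtype.val : fixF w F → GK w) ⁻¹' (E'.fixingSubgroup : Set (GK w)) ∈
      nhds (1 : fixF w F) := by
    refine continuous_subtype_val.continuousAt.preimage_mem_nhds ?_
    exact h1
  refine Filter.mem_of_superset h2 fun σ hσ => hEs ?_
  show up σ ∈ E.fixingSubgroup
  rw [IntermediateField.mem_fixingSubgroup_iff]
  have hσ' : σ.1 ∈ E'.fixingSubgroup := hσ
  rw [IntermediateField.mem_fixingSubgroup_iff] at hσ'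
  intro x hx
  have hx2 : x = ∑ i, (b.repr ⟨x, hx⟩ i : QB) * ((b i : E) : QB) := by
    have h3 := congrArg (fun y : E => (y : QB)) (b.sum_repr ⟨x, hx⟩)
    simp only [IntermediateField.coe_sum, IntermediateField.coe_smul] at h3
    exact h3.symm
  rw [hx2, map_sum]
  refine Finset.sum_congr rfl fun i _ => ?_
  rw [map_mul, up_apply, up_apply, hσ' _ (IntermediateField.subset_adjoin _ _ ⟨i, rfl⟩),
    σ.2 _ (b.repr ⟨x, hx⟩ i).2]

/-- the elements that fix `w` -/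
lemma exists_up (τ : GF F) (h : τ w = w) : ∃ σ : fixF w F, up σ = τ := by
  have hfix : ∀ x ∈ KK w, τ x = x := by
    intro x hx
    refine IntermediateField.adjoin_induction (p := fun x _ => τ x = x) ℚ ?_ ?_ ?_ ?_ ?_ hx
    · intro y hy
      rw [Set.mem_singleton_iff.1 hy, h]
    · intro q
      have h1 : algebraMap ℚ QB q = algebraMap F QB (algebraMap ℚ F q) := rfl
      rw [h1, AlgEquiv.commutes]
    · intro x y _ _ hx hy
      rw [map_add, hx, hy]
    · intro x _ hx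
      rw [map_inv₀, hx]
    · intro x y _ _ hx hy
      rw [map_mul, hx, hy]
  refine ⟨⟨AlgEquiv.ofRingEquiv (f := τ.toRingEquiv) fun r => hfix r r.2, fun x hx => ?_⟩, ?_⟩
  · show τ x = x
    exact τ.commutes ⟨x, hx⟩
  · ext x
    rfl

variable (hw : w ^ 2 = w - 2)

/-- the induced representation, in the coordinates `v 0 = f (1)`, `v 1 = f (c₀)` -/
structure Ind (χ : GK w →* ℤ_[2]ˣ) (c₀ : GF F)
    (R : GF F → (Fin 2 → ℚ_[2]) →ₗ[ℚ_[2]] (Fin 2 → ℚ_[2])) : Prop where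
  one : ∀ v, R 1 v = v
  mul : ∀ σ τ v, R (σ * τ) v = R σ (R τ v)
  moves : c₀ w ≠ w
  swap : ∀ v, R c₀ v 0 = v 1
  first : ∀ (σ : GF F) (τ : GK w), (∀ x, σ x = τ x) → ∀ v, R σ v 0 = vl χ τ * v 0

include hw in
theorem shapiro {χ : GK w →* ℤ_[2]ˣ} {c₀ : GF F}
    {R : GF F → (Fin 2 → ℚ_[2]) →ₗ[ℚ_[2]] (Fin 2 → ℚ_[2])} (hR : Ind χ c₀ R)
    {c : GF F → Fin 2 → ℚ_[2]} (hmul : ∀ σ τ, c (σ * τ) = c σ + R σ (c τ)) {y0 : ℚ_[2]}
    (hfirst : ∀ σ : fixF w F, c (up σ) 0 = vl χ σ.1 * y0 - y0) :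
    ∃ y : Fin 2 → ℚ_[2], ∀ σ, c σ = R σ y - y := by
  have hfst : ∀ (σ : fixF w F) v, R (up σ) v 0 = vl χ σ.1 * v 0 := fun σ v =>
    hR.first (up σ) σ.1 (fun x => rfl) v
  have hsgn : ∀ τ : GF F, τ w = w ∨ τ w = 1 - w := by
    intro τ
    have h1 : (τ w) ^ 2 = τ w - 2 := by
      rw [← map_pow, hw, map_sub, map_ofNat]
    have h2 : (τ w - w) * (τ w - (1 - w)) = 0 := by linear_combination h1 - hw
    rcases mul_eq_zero.1 h2 with h3 | h3
    · exact Or.inl (sub_eq_zero.1 h3)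
    · exact Or.inr (sub_eq_zero.1 h3)
  have hc0s : c₀ w = 1 - w := (hsgn c₀).resolve_left hR.moves
  have hmw : ∀ σ : fixF w F, up σ w = w := fun σ =>
    σ.1.commutes ⟨w, IntermediateField.mem_adjoin_simple_self ℚ w⟩
  have hone : ∀ τ : GF F, τ (1 - w) = 1 - τ w := fun τ => by rw [map_sub, map_one]
  have hcinv : c₀⁻¹ w = 1 - w := by
    show c₀.symm w = 1 - w
    rw [AlgEquiv.symm_apply_eq, hone, hc0s]
    ring
  have hmulw : ∀ (σ τ : GF F) (x : QB), (σ * τ) x = σ (τ x) := fun σ τ x => rfl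
  -- conjugation by `c₀`
  have hconj : ∀ σ : fixF w F, ∃ σ' : fixF w F, up σ' = c₀ * up σ * c₀⁻¹ := by
    intro σ
    refine exists_up _ ?_
    rw [hmulw, hmulw, hcinv, hone, hmw, hone, hc0s]
    ring
  have hsnd : ∀ (σ σ' : fixF w F), up σ' = c₀ * up σ * c₀⁻¹ → ∀ v,
      R (up σ) v 1 = vl χ σ'.1 * (v 1) := by
    intro σ σ' h v
    have h1 : up σ' * c₀ = c₀ * up σ := by rw [h]; group
    rw [← hR.swap (R (up σ) v), ← hR.mul, ← h1, hR.mul, hfst, hR.swap]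
  -- the second coordinate
  set z : ℚ_[2] := y0 + c c₀ 0 with hz
  have hsecond : ∀ (σ σ' : fixF w F), up σ' = c₀ * up σ * c₀⁻¹ →
      c (up σ) 1 = vl χ σ'.1 * z - z := by
    intro σ σ' h
    have h1 : up σ' * c₀ = c₀ * up σ := by rw [h]; group
    have h2 : c (up σ' * c₀) 0 = c (c₀ * up σ) 0 := by rw [h1]
    rw [hmul, hmul, Pi.add_apply, Pi.add_apply, hR.swap, hfst, hfirst] at h2
    rw [hz]
    linear_combination -h2
  -- subtract the coboundary
  set y : Fin 2 → ℚ_[2] := ![y0, z] with hyd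
  set c' : GF F → Fin 2 → ℚ_[2] := fun τ => c τ - (R τ y - y) with hc'
  have hc'M : ∀ σ : fixF w F, c' (up σ) = 0 := by
    intro σ
    funext i
    fin_cases i
    · show (c (up σ) - (R (up σ) y - y)) 0 = 0
      rw [Pi.sub_apply, Pi.sub_apply, hfst, hfirst]
      show _ - (vl χ σ.1 * y0 - y0) = 0
      rw [sub_self]
    · show (c (up σ) - (R (up σ) y - y)) 1 = 0
      obtain ⟨σ', h⟩ := hconj σ
      rw [Pi.sub_apply, Pi.sub_apply, hsnd σ σ' h, hsecond σ σ' h]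
      show _ - (vl χ σ'.1 * z - z) = 0
      rw [sub_self]
  have hc'mul : ∀ σ τ, c' (σ * τ) = c' σ + R σ (c' τ) := by
    intro σ τ
    show c (σ * τ) - (R (σ * τ) y - y) = c σ - (R σ y - y) + R σ (c τ - (R τ y - y))
    rw [hmul, hR.mul, map_sub, map_sub]
    abel
  have hinvar : ∀ σ : fixF w F, R (up σ) (c' c₀) = c' c₀ := by
    intro σ
    obtain ⟨σ'', h⟩ : ∃ σ'' : fixF w F, up σ'' = c₀⁻¹ * up σ * c₀ := by
      refine exists_up _ ?_
      rw [hmulw, hmulw, hc0s, hone, hmw, hone, hcinv]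
      ring
    have h1 : c' (up σ * c₀) = R (up σ) (c' c₀) := by
      rw [hc'mul, hc'M, zero_add]
    have h2 : c' (c₀ * up σ'') = c' c₀ := by
      rw [hc'mul, hc'M, map_zero, add_zero]
    have h3 : c₀ * up σ'' = up σ * c₀ := by rw [h]; group
    rw [h3, h1] at h2
    exact h2
  have hsq : R c₀ (c' c₀) = -c' c₀ := by
    obtain ⟨σ, h⟩ := exists_up (w := w) (c₀ * c₀) (by
      rw [hmulw, hc0s, hone, hc0s]
      ring)
    have h1 := hc'mul c₀ c₀
    rw [← h, hc'M] at h1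
    exact (neg_eq_of_add_eq_zero_right h1.symm).symm
  set u : Fin 2 → ℚ_[2] := (-(2 : ℚ_[2])⁻¹) • c' c₀ with hu
  have hu1 : R c₀ u = -u := by
    rw [hu, map_smul, hsq, smul_neg]
  have hu2 : ∀ σ : fixF w F, R (up σ) u = u := by
    intro σ
    rw [hu, map_smul, hinvar]
  refine ⟨y + u, fun τ => ?_⟩
  have hmain : c' τ = R τ u - u := by
    rcases hsgn τ with h1 | h1
    · obtain ⟨σ, rfl⟩ := exists_up τ h1
      rw [hc'M, hu2, sub_self]
    · obtain ⟨σ, h⟩ := exists_up (w := w) (τ * c₀⁻¹) (by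
        rw [hmulw, hcinv, hone, h1]
        ring)
      have h2 : τ = up σ * c₀ := by rw [h]; group
      rw [h2, hc'mul, hc'M, zero_add, hinvar, hR.mul, hu1, map_neg, hu2]
      have h3 : (2 : ℚ_[2]) • u = -c' c₀ := by
        rw [hu, smul_smul]
        have : (2 : ℚ_[2]) * -(2 : ℚ_[2])⁻¹ = -1 := by field_simp
        rw [this, neg_one_smul]
      have h4 : c' c₀ = -((2 : ℚ_[2]) • u) := by rw [h3, neg_neg]
      rw [h4, two_smul]
      abel
  have h5 : c τ = c' τ + (R τ y - y) := by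
    show c τ = c τ - (R τ y - y) + (R τ y - y)
    abel
  rw [h5, hmain, map_add]
  abel

/-- the decomposition and inertia sets in `GF F` -/
def DF {p : ℕ} [Fact p.Prime] (ι : QB →ₐ[ℚ] PadicAlgCl p) : Set (GF F) :=
  {σ | ∃ τ : PadicAlgCl p ≃ₐ[ℚ_[p]] PadicAlgCl p, ∀ x, τ (ι x) = ι (σ x)}

/-- inertia -/
def IF {p : ℕ} [Fact p.Prime] (ι : QB →ₐ[ℚ] PadicAlgCl p) : Set (GF F) :=
  {σ | ∃ τ : PadicAlgCl p ≃ₐ[ℚ_[p]] PadicAlgCl p, (∀ x, τ (ι x) = ι (σ x)) ∧
    ∀ z : PadicAlgCl p, ‖z‖ ≤ 1 → ‖τ z - z‖ < 1}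

open scoped Classical in
/-- the coordinate with the strict condition, if the strict place of `χ` is `v` -/
noncomputable def quoF (v : QB) (ι : QB →ₐ[ℚ] PadicAlgCl 2) : Fin 2 := if ‖ι v‖ < 1 then 0 else 1

open scoped Classical in
/-- the vanishing over `F` -/
theorem van_F {χ : GK w →* ℤ_[2]ˣ} {ϖ : OO} (hV : VanOn hw ϖ χ (fixF w F)) {c₀ : GF F}
    {R : GF F → (Fin 2 → ℚ_[2]) →ₗ[ℚ_[2]] (Fin 2 → ℚ_[2])} (hR : Ind χ c₀ R)
    {c : GF F → Fin 2 → ℚ_[2]} (hc : Continuous c) (hmul : ∀ σ τ, c (σ * τ) = c σ + R σ (c τ))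
    (hodd : ∀ (p : ℕ) [Fact p.Prime] (ι : QB →ₐ[ℚ] PadicAlgCl p), p ≠ 2 →
      ∃ y : Fin 2 → ℚ_[2], ∀ σ ∈ IF (F := F) ι, c σ = R σ y - y)
    (htwo : ∀ ι : QB →ₐ[ℚ] PadicAlgCl 2, ∃ y : Fin 2 → ℚ_[2], ∀ σ ∈ DF (F := F) ι,
      c σ (quoF (em hw ϖ) ι) = (R σ y - y) (quoF (em hw ϖ) ι)) :
    ∃ y : Fin 2 → ℚ_[2], ∀ σ, c σ = R σ y - y := by
  have hfst : ∀ (σ : fixF w F) v, R (up σ) v 0 = vl χ σ.1 * v 0 := fun σ v =>
    hR.first (up σ) σ.1 (fun x => rfl) v
  set c1 : GK w → ℚ_[2] := fun σ => if h : σ ∈ fixF w F then c (up ⟨σ, h⟩) 0 else 0 with hc1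
  have hc1' : ∀ (σ : GK w) (h : σ ∈ fixF w F), c1 σ = c (up ⟨σ, h⟩) 0 := fun σ h => by
    rw [hc1]
    exact dif_pos h
  obtain ⟨y0, hy0⟩ := hV c1 ⟨by
      rw [continuousOn_iff_continuous_domRestrict]
      have h1 : (fixF w F : Set (GK w)).domRestrict c1 = fun σ : fixF w F => c (up σ) 0 := by
        funext σ
        exact hc1' σ.1 σ.2
      rw [h1]
      exact (continuous_apply 0).comp (hc.comp up_cont), fun σ hσ τ hτ => by
      rw [hc1' _ (mul_mem hσ hτ), hc1' σ hσ, hc1' τ hτ]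
      have h1 : (⟨σ * τ, mul_mem hσ hτ⟩ : fixF w F) = ⟨σ, hσ⟩ * ⟨τ, hτ⟩ := rfl
      rw [h1, map_mul, hmul, Pi.add_apply, hfst]⟩
    (fun p _ ι hp => by
      obtain ⟨y, hy⟩ := hodd p ι hp
      refine ⟨y 0, fun σ hσ hσH => ?_⟩
      obtain ⟨τ, hτ, hin⟩ := hσ
      rw [hc1' σ hσH, hy (up ⟨σ, hσH⟩) ⟨τ, hτ, hin⟩, Pi.sub_apply, hfst]
      ring)
    (fun ι hι => by
      obtain ⟨y, hy⟩ := htwo ι
      refine ⟨y 0, fun σ hσ hσH => ?_⟩
      obtain ⟨τ, hτ⟩ := hσ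
      have h2 : quoF (em hw ϖ) ι = 0 := if_pos hι
      have h1 := hy (up ⟨σ, hσH⟩) ⟨τ, hτ⟩
      rw [h2] at h1
      rw [hc1' σ hσH, h1, Pi.sub_apply, hfst]
      ring)
  exact shapiro hw hR hmul (y0 := y0) fun σ => by
    rw [← hc1' σ.1 σ.2, hy0 σ.1 σ.2]
    ring

end Pool.Agent.NH6.HB
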